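import Pool.Agent.H46.SG.Inst

set_option autoImplicit false

/-!
# Subgaussian sets of characters: the number of quasi-independent sets

Let `G` be ANY compact abelian group, `m ≥ 2`, and `Λ` a set of nontrivial continuous characters of `G` with `m χ = 0`
(for `G = (ℤ/m)^ℕ` these are all nontrivial characters; the question is `G = (ℤ/4)^ℕ`).

* If `Λ` is subgaussian with the constant `C` then `Λ` is a union of at most `⌈num m C⌉` quasi-independent sets,
  `num m C = C² log m (1 + 1 / log max(m, 1 + C²))`. These sets are even independent in a stronger sense: a relation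
  `∑ ξ_x x = 0` whose coefficients are zero or prime to `m` is trivial. For `m` prime this is linear independence over
  `ℤ/m`.
* A union of `k` quasi-independent sets is subgaussian with the constant `5 √k`.
* The number `num m C` is sharp. If `m` is prime and `H` is a finite group of `n` characters with `m H = 0` then the set
  of its nonzero elements is subgaussian with a constant `C` such that every covering of it by independent sets has at
  least `(1 - o(1)) num m C` members, `n → ∞`. For all `m` at least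
  `(log q) C² log (n - 1) / log n` sets are necessary, `q` the least prime factor of `m`, and at least
  `(log 2) C² log (n - 1) / log n` if only quasi-independence is required.
* The combinatorial part: if `|A| ≤ k ⌈log_m |⟨A⟩|⌉` for all finite `A ⊆ Λ` (`Λ` a subset of any abelian group with
  `m Λ = 0`), then `Λ` is a union of `k` independent sets. Conversely `|A| log q ≤ k log |⟨A⟩|` for unions of `k`
  independent sets.

Proof. The sum of the characters in a finite `A ⊆ Λ` is `|A|` on the annihilator of `⟨A⟩`, so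
`|A| ≤ C² (1 + log |⟨A⟩|)`. The theorem of Edmonds on the partition of a matroid is applied to the classes of the
elements of `A` in the vector spaces `⟨A⟩ / p ⟨A⟩`, with the prime `p` for which this space has the largest dimension; the
part of `A` that is left over is treated in the same way.
-/

namespace Pool.Agent.Results.MP_080bf7_an.SharpNumberOfSets

open MeasureTheory TopologicalSpace

universe u

/-- The `ψ₂` norm `inf {c > 0 : ∫ exp(|f|² / c²) dμ ≤ e}`. -/
noncomputable def psi2 {G : Type*} [MeasurableSpace G] (μ : Measure G) (f : G → ℂ) : ℝ :=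
  sInf {c : ℝ | 0 < c ∧
    ∫⁻ t, ENNReal.ofReal (Real.exp (‖f t‖ ^ 2 / c ^ 2)) ∂μ ≤ ENNReal.ofReal (Real.exp 1)}

/-- `Λ` is subgaussian with the constant `C`: `‖∑ a_n γ_n‖_{ψ₂} ≤ C (∑ |a_n|²)^{1/2}` for all finitely supported families
of complex coefficients on `Λ`. Here `chr n` is the function `γ_n` on `G` which belongs to the index `n`. -/
def Subgaussian {Γ G : Type*} [MeasurableSpace G] (μ : Measure G) (chr : Γ → G → ℂ) (C : ℝ) (Λ : Set Γ) : Prop :=
  ∀ (A : Finset Γ) (a : Γ → ℂ), (A : Set Γ) ⊆ Λ →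
    psi2 μ (fun t => ∑ n ∈ A, a n * chr n t) ≤ C * Real.sqrt (∑ n ∈ A, ‖a n‖ ^ 2)

/-- `Λ` is quasi-independent: a relation `∑_{x ∈ A} ξ_x x = 0` over a finite `A ⊆ Λ` with all `ξ_x ∈ {-1, 0, 1}` is
trivial. -/
def QuasiIndependent {Γ : Type*} [AddCommGroup Γ] (Λ : Set Γ) : Prop :=
  ∀ A : Finset Γ, (A : Set Γ) ⊆ Λ → ∀ ξ : Γ → ℤ,
    (∀ x ∈ A, ξ x = -1 ∨ ξ x = 0 ∨ ξ x = 1) → ∑ x ∈ A, ξ x • x = 0 → ∀ x ∈ A, ξ x = 0

/-- `Λ` is `m`-independent: a relation `∑_{x ∈ A} ξ_x x = 0` over a finite `A ⊆ Λ` such that every `ξ_x` is zero or prime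
to `m` is trivial. -/
def Independent {Γ : Type*} [AddCommGroup Γ] (m : ℕ) (Λ : Set Γ) : Prop :=
  ∀ A : Finset Γ, (A : Set Γ) ⊆ Λ → ∀ ξ : Γ → ℤ,
    (∀ x ∈ A, ξ x = 0 ∨ IsCoprime (ξ x) m) → ∑ x ∈ A, ξ x • x = 0 → ∀ x ∈ A, ξ x = 0

/-- `Λ` is the union of `k` sets with the property `p`. -/
def UnionOf {Γ : Type*} (p : Set Γ → Prop) (k : ℕ) (Λ : Set Γ) : Prop :=
  ∃ Q : Fin k → Set Γ, (∀ i, p (Q i)) ∧ Λ = ⋃ i, Q i

/-- The number of sets: `C² log m (1 + 1 / log max(m, 1 + C²))`. -/
noncomputable def num (m : ℕ) (C : ℝ) : ℝ := C ^ 2 * Real.log m * (1 + 1 / Real.log (max m (1 + C ^ 2)))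

/-- The nonzero elements of a subgroup. -/
def nonzero {Γ : Type*} [AddCommGroup Γ] (H : AddSubgroup Γ) : Set Γ := {x | x ∈ H ∧ x ≠ 0}

/-- The subgaussian constant determines the number of independent and quasi-independent sets. Here `Γ₀` is the set of
all the indices `n` for which `chr n` is a continuous character of `G`.
1. A subgaussian set `Λ` with the constant `C` of nonzero elements with `m Λ = 0` is a union of `⌈num m C⌉`
   `m`-independent sets.
2. A union of `k` quasi-independent sets is subgaussian with the constant `5 √k`.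
3. The set of the nonzero elements of a finite group `H` with `m H = 0`, `n = |H| ≥ 3`, is subgaussian with the constant
   `√((n - 1) / log (n - 1))`. If it is a union of `k` `m`-independent sets then `k log n ≥ (n - 1) log q`, `q` the least
   prime factor of `m`. If it is a union of `k` quasi-independent sets then `k log n ≥ (n - 1) log 2`.
4. The bound of 1. is asymptotically sharp for `m` prime: for `ε > 0` and all finite groups `H` with `m H = 0` and
   `|H| ≥ n₀ (ε)` the set of the nonzero elements is not the union of less than `num m C / (1 + ε)` `m`-independent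
   sets, `C` the constant of 3. -/
def Comparable (n₀ : ℝ → ℕ) (m : ℕ) {Γ G : Type*} [AddCommGroup Γ] [MeasurableSpace G] (μ : Measure G)
    (chr : Γ → G → ℂ) (Γ₀ : Set Γ) : Prop :=
  (∀ (C : ℝ) (Λ : Set Γ), Λ ⊆ Γ₀ → (∀ x ∈ Λ, x ≠ 0 ∧ m • x = 0) → Subgaussian μ chr C Λ →
    UnionOf (Independent m) ⌈num m C⌉₊ Λ) ∧
  (∀ (k : ℕ) (Λ : Set Γ), Λ ⊆ Γ₀ → UnionOf QuasiIndependent k Λ → Subgaussian μ chr (5 * Real.sqrt k) Λ) ∧
  (∀ H : AddSubgroup Γ, (H : Set Γ) ⊆ Γ₀ → (∀ x ∈ H, m • x = 0) → Finite H → 3 ≤ Nat.card H →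
    Subgaussian μ chr (Real.sqrt (((Nat.card H : ℝ) - 1) / Real.log ((Nat.card H : ℝ) - 1))) (nonzero H) ∧
    ∀ k : ℕ,
      (UnionOf (Independent m) k (nonzero H) →
        ((Nat.card H : ℝ) - 1) * Real.log m.minFac ≤ k * Real.log (Nat.card H)) ∧
      (UnionOf QuasiIndependent k (nonzero H) →
        ((Nat.card H : ℝ) - 1) * Real.log 2 ≤ k * Real.log (Nat.card H))) ∧
  (m.Prime → ∀ ε : ℝ, 0 < ε → ∀ H : AddSubgroup Γ, (H : Set Γ) ⊆ Γ₀ → (∀ x ∈ H, m • x = 0) → Finite H →
    3 ≤ Nat.card H → n₀ ε ≤ Nat.card H → ∀ k : ℕ, UnionOf (Independent m) k (nonzero H) →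
      num m (Real.sqrt (((Nat.card H : ℝ) - 1) / Real.log ((Nat.card H : ℝ) - 1))) ≤ (1 + ε) * k)

/-! ### the group of the question -/

/-- The normalised Haar measure of the compact group `G = (ℤ/m)^ℕ` (product topology). -/
noncomputable def haar (m : ℕ) [NeZero m] : Measure (ℕ → ZMod m) :=
  Measure.addHaarMeasure (⊤ : PositiveCompacts (ℕ → ZMod m))

/-- The character `γ_n(t) = exp(2πi (∑_k t_k n_k) / m)` of `G = (ℤ/m)^ℕ` attached to the finitely supported sequence
`n`. -/
noncomputable def gam {m : ℕ} [NeZero m] (n : ℕ →₀ ZMod m) (t : ℕ → ZMod m) : ℂ :=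
  Complex.exp (2 * Real.pi * Complex.I * ((∑ k ∈ n.support, t k * n k : ZMod m).val : ℂ) / m)

section Gam

variable {N : ℕ} [NeZero N]

instance : IsProbabilityMeasure (haar N) := ⟨by
  have h := Measure.addHaarMeasure_self (K₀ := (⊤ : PositiveCompacts (ℕ → ZMod N)))
  simpa [haar] using h⟩

instance : (haar N).IsAddLeftInvariant := by unfold haar; infer_instance

theorem gam_eq (n : ℕ →₀ ZMod N) (t : ℕ → ZMod N) :
    gam n t = ZMod.stdAddChar (n.sum fun k a => t k * a) := by
  rw [ZMod.stdAddChar_apply, ZMod.toCircle_apply, gam]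
  rfl

omit [NeZero N] in
theorem pair_add_left (m n : ℕ →₀ ZMod N) (t : ℕ → ZMod N) :
    ((m + n).sum fun k a => t k * a) = (m.sum fun k a => t k * a) + n.sum fun k a => t k * a :=
  Finsupp.sum_add_index' (fun _ => by simp) (fun _ _ _ => by ring)

omit [NeZero N] in
theorem pair_add_right (n : ℕ →₀ ZMod N) (s t : ℕ → ZMod N) :
    (n.sum fun k a => (s + t) k * a) = (n.sum fun k a => s k * a) + n.sum fun k a => t k * a := by
  rw [← Finsupp.sum_add]
  refine Finsupp.sum_congr fun k _ => ?_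
  rw [Pi.add_apply, add_mul]

/-- the characters `γ_n` -/
noncomputable def gamPairing (N : ℕ) [NeZero N] :
    Pool.Agent.H46.SG.Pairing (ℕ →₀ ZMod N) (ℕ → ZMod N) where
  chr := gam
  zero t := by rw [gam_eq]; simp
  add m n t := by rw [gam_eq, gam_eq, gam_eq, pair_add_left, AddChar.map_add_eq_mul]
  add' n s t := by rw [gam_eq, gam_eq, gam_eq, pair_add_right, AddChar.map_add_eq_mul]
  norm n t := by
    rw [gam_eq, ZMod.stdAddChar_apply]
    exact Circle.norm_coe _
  cont n := by
    have h : (gam n : (ℕ → ZMod N) → ℂ) = fun t => (ZMod.stdAddChar (n.sum fun k a => t k * a) : ℂ) := by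
      funext t; exact gam_eq n t
    rw [h]
    have h2 : Continuous fun t : ℕ → ZMod N => (n.sum fun k a => t k * a) := by
      unfold Finsupp.sum
      exact continuous_finsetSum _ fun k _ => (continuous_apply k).mul continuous_const
    exact (continuous_of_discreteTopology (f := fun z : ZMod N => (ZMod.stdAddChar z : ℂ))).comp h2
  ne n hn := by
    obtain ⟨k, hk⟩ := Finsupp.ne_iff.1 hn
    rw [Finsupp.zero_apply] at hk
    refine ⟨Pi.single k 1, ?_⟩
    rw [gam_eq]
    have h : (n.sum fun j a => (Pi.single k (1 : ZMod N) : ℕ → ZMod N) j * a) = n k := by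
      unfold Finsupp.sum
      rw [Finset.sum_eq_single k]
      · simp
      · intro j _ hj
        simp [hj]
      · intro h0
        simp [Finsupp.notMem_support_iff.1 h0]
    rw [h]
    intro h1
    apply hk
    have h2 : (ZMod.stdAddChar (n k) : ℂ) = ZMod.stdAddChar (0 : ZMod N) := by
      rw [h1, AddChar.map_zero_eq_one]
    exact ZMod.injective_stdAddChar h2

end Gam

/-! ### proofs -/

section Proofs

variable {Γ G : Type*} [AddCommGroup Γ] [AddCommGroup G] [TopologicalSpace G]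
  [IsTopologicalAddGroup G] [CompactSpace G] [MeasurableSpace G] [BorelSpace G]
  (μ : Measure G) [IsProbabilityMeasure μ] [μ.IsAddLeftInvariant]

theorem nonzero_lower {m : ℕ} (H : AddSubgroup Γ) [Finite H] (k : ℕ) :
    (UnionOf (Independent m) k (nonzero H) →
        ((Nat.card H : ℝ) - 1) * Real.log m.minFac ≤ k * Real.log (Nat.card H)) ∧
      (UnionOf QuasiIndependent k (nonzero H) →
        ((Nat.card H : ℝ) - 1) * Real.log 2 ≤ k * Real.log (Nat.card H)) := by
  constructor
  · rintro ⟨Q, hQ, hcov⟩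
    exact Pool.Agent.H46.SG.cover_lower H m.minFac (Nat.minFac_pos m)
      (fun z => z = 0 ∨ IsCoprime z m) (fun z hz => Pool.Agent.H46.SG.U_of_lt z hz) k Q
      (fun i => hQ i) hcov.le
  · rintro ⟨Q, hQ, hcov⟩
    have h := Pool.Agent.H46.SG.cover_lower H 2 (by norm_num)
      (fun z => z = -1 ∨ z = 0 ∨ z = 1) (fun z hz => by
        rw [abs_lt] at hz
        push_cast at hz
        omega) k Q
      (fun i => hQ i) hcov.le
    exact_mod_cast h

theorem comparable_of {n₀ : ℝ → ℕ} (hn₀ : ∀ ε : ℝ, 0 < ε → ∀ n : ℕ, n₀ ε ≤ n → ∀ p : ℕ, 2 ≤ p → ∀ k : ℝ, 0 ≤ k →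
      ((n : ℝ) - 1) * Real.log p ≤ k * Real.log n →
      num p (Real.sqrt (((n : ℝ) - 1) / Real.log ((n : ℝ) - 1))) ≤ (1 + ε) * k)
    (m : ℕ) (hm : 2 ≤ m) (S : AddSubgroup Γ) (chr : Γ → G → ℂ)
    (P : Pool.Agent.H46.SG.Pairing S G) (hP : ∀ x : S, P.chr x = chr x) :
    Comparable n₀ m μ chr S := by
  classical
  have hchr : P.chr = fun x : S => chr x := funext hP
  have hsub : ∀ (C : ℝ) (Λ : Set Γ), Λ ⊆ S →
      (Subgaussian μ chr C Λ ↔ Pool.Agent.H46.SG.SubC μ P.chr C (Subtype.val ⁻¹' Λ)) := by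
    intro C Λ hΛ
    rw [hchr]
    exact Pool.Agent.H46.SG.sub_transfer μ S chr C Λ hΛ
  have hnonzero : ∀ H : AddSubgroup Γ, (H : Set Γ) ⊆ S → Finite H → 3 ≤ Nat.card H →
      Subgaussian μ chr (Real.sqrt (((Nat.card H : ℝ) - 1) / Real.log ((Nat.card H : ℝ) - 1))) (nonzero H) := by
    intro H hH hfin hcard
    have hsubH : nonzero H ⊆ S := fun x hx => hH hx.1
    rw [hsub _ _ hsubH]
    have hfin2 : (H : Set Γ).Finite := Set.toFinite _
    have hfin3 : (Subtype.val ⁻¹' nonzero H : Set S).Finite :=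
      (hfin2.subset (fun x hx => hx.1)).preimage Subtype.val_injective.injOn
    have hc : (hfin3.toFinset.card : ℝ) = (Nat.card H : ℝ) - 1 := by
      have h1 : hfin3.toFinset.card = (nonzero H).ncard := by
        rw [← Set.ncard_eq_toFinset_card _ hfin3]
        have h2 : Subtype.val '' (Subtype.val ⁻¹' nonzero H : Set S) = nonzero H := by
          rw [Set.image_preimage_eq_iff, Subtype.range_coe_subtype]
          exact hsubH
        rw [← h2, Set.ncard_image_of_injective _ Subtype.val_injective, h2]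
      have h3 : nonzero H = (H : Set Γ) \ {0} := by
        ext x
        simp [nonzero]
      have h4 : (nonzero H).ncard + 1 = Nat.card H := by
        rw [h3, Set.ncard_sdiff_singleton_add_one (AddSubgroup.zero_mem H) hfin2]
        rfl
      rw [h1, ← h4]
      push_cast
      ring
    have h5 := Pool.Agent.H46.SG.sub_finite μ P hfin3.toFinset (by
      have : (2 : ℝ) ≤ (hfin3.toFinset.card : ℝ) := by
        rw [hc]
        have : (3 : ℝ) ≤ (Nat.card H : ℝ) := by exact_mod_cast hcard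
        linarith
      exact_mod_cast this)
    rw [hc, Set.Finite.coe_toFinset] at h5
    exact h5
  refine ⟨?_, ?_, ?_, ?_⟩
  · intro C Λ hΛ hx hS
    obtain ⟨Q, hQ, hcov⟩ : ∃ Q : Fin ⌈num m C⌉₊ → Set S, (∀ i, Pool.Agent.H46.SG.Ind m (Q i)) ∧
        (Subtype.val ⁻¹' Λ : Set S) = ⋃ i, Q i := Pool.Agent.H46.SG.union_of_sub μ P hm
      (C := C) (Λ := Subtype.val ⁻¹' Λ)
      (fun x hx' => by
        ext
        rw [AddSubgroup.coe_nsmul, AddSubgroup.coe_zero]
        exact (hx x hx').2)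
      (fun h => (hx 0 h).1 rfl) ((hsub C Λ hΛ).1 hS)
    refine ⟨fun i => Subtype.val '' Q i, fun i => ?_, ?_⟩
    · exact Pool.Agent.H46.SG.indP_image (p := fun z => z = 0 ∨ IsCoprime z m) S (hQ i)
    · have h2 : Subtype.val '' (Subtype.val ⁻¹' Λ : Set S) = Λ := by
        rw [Set.image_preimage_eq_iff, Subtype.range_coe_subtype]
        exact hΛ
      rw [← Set.image_iUnion, ← hcov, h2]
  · rintro k Λ hΛ ⟨Q, hQ, hcov⟩
    rw [hsub _ _ hΛ]
    refine Pool.Agent.H46.SG.sub_of_union μ P k (fun i => Subtype.val ⁻¹' Q i) (fun i => ?_) _ ?_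
    · exact Pool.Agent.H46.SG.indP_preimage (p := fun z => z = -1 ∨ z = 0 ∨ z = 1) S (hQ i)
    · rw [hcov, Set.preimage_iUnion]
  · intro H hH hexp hfin hcard
    exact ⟨hnonzero H hH hfin hcard, fun k => nonzero_lower H k⟩
  · intro hpr ε hε H hH hexp hfin _ hcard k hk
    refine hn₀ ε hε _ hcard m hm k (Nat.cast_nonneg k) ?_
    have h1 := (nonzero_lower (m := m) H k).1 hk
    rwa [hpr.minFac_eq] at h1

end Proofs

/-- 1. Combinatorics. Let `m ≥ 2` and let `Λ` be a subset of an abelian group with `m Λ = 0`. If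
`|A| ≤ k ⌈log_m |⟨A⟩|⌉` for all finite `A ⊆ Λ` then `Λ` is a union of `k` `m`-independent sets. Conversely, if `Λ` is
a union of `k` `m`-independent sets then `|A| log q ≤ k log |⟨A⟩|` for all finite `A ⊆ Λ`, `q` the least prime factor of
`m`, and if `Λ` is a union of `k` quasi-independent sets then `|A| log 2 ≤ k log |⟨A⟩|`. `m`-independent sets are
quasi-independent, and for prime `m` they are the linearly independent sets over `ℤ/m`.
2. With a function `n₀` (which depends on nothing), `Comparable` is true for all `m ≥ 2` and all sets of continuous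
characters of every compact abelian group `G`, with the normalised Haar measure.
3. It is true for the characters `γ_n`, `n ∈ (ℤ/m)^(ℕ)`, of `(ℤ/m)^ℕ`, all `m ≥ 2`.
4. The answer to the question is yes, for all `m ≥ 2` instead of `4`: a set `Λ` of nonzero elements of `(ℤ/m)^(ℕ)` is
subgaussian if and only if it is a finite union of quasi-independent sets. -/
theorem result :
    (∀ (Γ : Type u) [AddCommGroup Γ] (m k : ℕ) (Λ : Set Γ), 2 ≤ m → (∀ x ∈ Λ, m • x = 0) →
      ((∀ A : Finset Γ, (A : Set Γ) ⊆ Λ →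
          A.card ≤ k * Nat.clog m (Nat.card (AddSubgroup.closure (A : Set Γ)))) →
        UnionOf (Independent m) k Λ) ∧
      (UnionOf (Independent m) k Λ → ∀ A : Finset Γ, (A : Set Γ) ⊆ Λ →
        A.card * Real.log m.minFac ≤ k * Real.log (Nat.card (AddSubgroup.closure (A : Set Γ)))) ∧
      (UnionOf QuasiIndependent k Λ → ∀ A : Finset Γ, (A : Set Γ) ⊆ Λ →
        A.card * Real.log 2 ≤ k * Real.log (Nat.card (AddSubgroup.closure (A : Set Γ)))) ∧
      (Independent m Λ → QuasiIndependent Λ) ∧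
      (∀ [Fact m.Prime] [Module (ZMod m) Γ], Independent m Λ ↔ LinearIndepOn (ZMod m) id Λ)) ∧
    (∃ n₀ : ℝ → ℕ,
      (∀ (G : Type u) [AddCommGroup G] [TopologicalSpace G] [IsTopologicalAddGroup G] [CompactSpace G]
        [MeasurableSpace G] [BorelSpace G] (μ : Measure G) [μ.IsAddHaarMeasure] [IsProbabilityMeasure μ]
        (m : ℕ), 2 ≤ m →
        Comparable n₀ m μ (fun (χ : AddChar G Circle) (t : G) => ((χ t : Circle) : ℂ)) {χ | Continuous χ}) ∧
      (∀ (m : ℕ) [NeZero m], 2 ≤ m →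
        Comparable n₀ m (haar m) (gam : (ℕ →₀ ZMod m) → (ℕ → ZMod m) → ℂ) Set.univ)) ∧
    (∀ (m : ℕ) [NeZero m], 2 ≤ m → ∀ Λ : Set (ℕ →₀ ZMod m), 0 ∉ Λ →
      ((∃ C : ℝ, Subgaussian (haar m) gam C Λ) ↔ ∃ k : ℕ, UnionOf QuasiIndependent k Λ)) := by
  have hex : ∀ ε : ℝ, ∃ n₀ : ℕ, 0 < ε → ∀ n : ℕ, n₀ ≤ n → ∀ p : ℕ, 2 ≤ p → ∀ k : ℝ, 0 ≤ k →
      ((n : ℝ) - 1) * Real.log p ≤ k * Real.log n →
      num p (Real.sqrt (((n : ℝ) - 1) / Real.log ((n : ℝ) - 1))) ≤ (1 + ε) * k := by
    intro ε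
    by_cases hε : 0 < ε
    · obtain ⟨n₀, -, h⟩ := Pool.Agent.H46.SG.asym hε
      exact ⟨n₀, fun _ => h⟩
    · exact ⟨0, fun h => absurd h hε⟩
  choose n₀ hn₀ using hex
  have hgam : ∀ (m : ℕ) [NeZero m], 2 ≤ m →
      Comparable n₀ m (haar m) (gam : (ℕ →₀ ZMod m) → (ℕ → ZMod m) → ℂ) Set.univ := by
    intro m _ hm
    have h := comparable_of (haar m) hn₀ m hm ⊤ gam (Pool.Agent.H46.SG.topPairing (gamPairing m))
      (fun x => rfl)
    rwa [AddSubgroup.coe_top] at h
  refine ⟨fun Γ _ m k Λ hm hexp => ⟨fun h => ?_, ?_, ?_, fun h => ?_, ?_⟩, ⟨n₀, ?_, hgam⟩, ?_⟩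
  · exact Pool.Agent.H46.SG.finite_union hm k Λ hexp h
  · rintro ⟨Q, hQ, hcov⟩ A hA
    have hfin : Finite (AddSubgroup.closure (A : Set Γ)) :=
      Pool.Agent.H337R3.Sid.closure_finite m (by omega) A (fun x hx => hexp x (hA hx))
    exact Pool.Agent.H46.SG.cover_lower' _ m.minFac (Nat.minFac_pos m)
      (fun z => z = 0 ∨ IsCoprime z m) (fun z hz => Pool.Agent.H46.SG.U_of_lt z hz) k Q
      (fun i => hQ i) A (fun x hx => AddSubgroup.subset_closure hx) (hA.trans hcov.le)
  · rintro ⟨Q, hQ, hcov⟩ A hA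
    have hfin : Finite (AddSubgroup.closure (A : Set Γ)) :=
      Pool.Agent.H337R3.Sid.closure_finite m (by omega) A (fun x hx => hexp x (hA hx))
    have h := Pool.Agent.H46.SG.cover_lower' (AddSubgroup.closure (A : Set Γ)) 2 (by norm_num)
      (fun z => z = -1 ∨ z = 0 ∨ z = 1) (fun z hz => by
        rw [abs_lt] at hz
        push_cast at hz
        omega) k Q
      (fun i => hQ i) A (fun x hx => AddSubgroup.subset_closure hx) (hA.trans hcov.le)
    exact_mod_cast h
  · exact Pool.Agent.H46.SG.qi_of_ind h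
  · intro _ _
    exact Pool.Agent.H46.SG.ind_iff Λ
  · intro G _ _ _ _ _ _ μ _ _ m hm
    exact comparable_of μ hn₀ m hm (Pool.Agent.H46.SG.contSub G) _ (Pool.Agent.H46.SG.charPairing G)
      (fun x => rfl)
  · intro m _ hm Λ h0
    obtain ⟨h1, h2, -, -⟩ := hgam m hm
    constructor
    · rintro ⟨C, hC⟩
      obtain ⟨Q, hQ, hcov⟩ := h1 C Λ (Set.subset_univ _) (fun x hx => ⟨fun h => h0 (h ▸ hx), by
        ext k
        simp⟩) hC
      exact ⟨_, Q, fun i => Pool.Agent.H46.SG.qi_of_ind (hQ i), hcov⟩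
    · rintro ⟨k, hk⟩
      exact ⟨_, h2 k Λ (Set.subset_univ _) hk⟩

end Pool.Agent.Results.MP_080bf7_an.SharpNumberOfSets
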